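import Mathlib
import Pool.Agent.H.MP_593d43_lc.A

namespace Pool.Agent.Results.MP_593d43_lc.Span

/-- `g` is orthogonal. -/
def Orth {F : Type} [Field F] (g : F → ZMod 2) : Prop :=
  ∀ l : F, l ≠ 1 → ∑ᶠ x : F, (-1 : ℤ) ^ (g (l * x) + g x).val = 0

/-- `s` is a span `n` sequence. -/
def SpanSeq (n : ℕ) (s : ℕ → ZMod 2) : Prop :=
  (∀ k, s (k + (2 ^ n - 1)) = s k) ∧
    ∀ w : Fin n → ZMod 2, w ≠ 0 → ∃! k : Fin (2 ^ n - 1), ∀ i : Fin n, s (k + i) = w i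

/-- `s` is generated by a linear feedback shift register of length `L`. -/
def Gen (L : ℕ) (s : ℕ → ZMod 2) : Prop :=
  ∃ c : Fin L → ZMod 2, ∀ k, s (k + L) = ∑ i, c i * s (k + i)

open Pool.Agent.H.MP_593d43_lc in
theorem result : ∃ (a : GaloisField 2 7) (g : GaloisField 2 7 → ZMod 2) (r : Fin 7 → ℕ)
    (s : ℕ → ZMod 2) (L : ℕ),
    orderOf a = 2 ^ 7 - 1 ∧ Orth g ∧
    (¬ ∃ (u : Fin 7 → ZMod 2) (b : ZMod 2), ∀ v : Fin 7 → ZMod 2,
      g (∑ i, v i • a ^ (i : ℕ)) = b + ∑ i, u i * v i) ∧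
    StrictMono r ∧ (∀ i, 0 < r i ∧ r i < 12) ∧
    (∀ k, s (k + 12) = s k + g (∑ i, s (k + r i) • a ^ (i : ℕ))) ∧
    SpanSeq 12 s ∧ IsLeast {M | Gen M s} L ∧ L + 2 + 3 * 12 < 2 ^ 12 := by
  obtain ⟨a, ha⟩ := exists_root
  obtain ⟨g, hg, ho⟩ := exists_g a ha
  have hG : 4055 ∈ {M | Gen M sq} := ⟨fun i => bt CC i, lfsr⟩
  refine ⟨a, g, fun i => tap i, sq, sInf {M | Gen M sq}, ord a ha, ho, ?_, by decide, by decide,
    ?_, ⟨fun k => ?_, span⟩, isLeast_csInf ⟨_, hG⟩, ?_⟩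
  · rintro ⟨u, b, h⟩
    have key : ∀ c < 128, gb c = b + ∑ i : Fin 7, u i * bt c i := fun c hc => by
      rw [← hg c hc]; exact h fun i => bt c i
    have h0 := key 0 (by norm_num)
    have h1 := key 1 (by norm_num)
    have h2 := key 2 (by norm_num)
    have h3 := key 3 (by norm_num)
    have e : ∀ i : Fin 7, bt 3 i = bt 1 i + bt 2 i + bt 0 i := by decide
    have e2 : gb 0 = 0 ∧ gb 1 = 1 ∧ gb 2 = 1 ∧ gb 3 = 1 := by decide +kernel
    simp only [e, mul_add, Finset.sum_add_distrib] at h3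
    rw [e2.1] at h0
    rw [e2.2.1] at h1
    rw [e2.2.2.1] at h2
    rw [e2.2.2.2] at h3
    have t : (2 : ZMod 2) = 0 := by decide
    have : (1 : ZMod 2) = 0 := by linear_combination h3 - h1 - h2 - h0 + (1 - b) * t
    exact absurd this (by decide)
  · intro k
    obtain ⟨c, hc, h1, h2⟩ := rec_spec k
    rw [h2, ← hg c hc]
    simp only [ph, h1]
  · have e : (k + (2 ^ 12 - 1)) % 4095 = k % 4095 := Nat.add_mod_right k 4095
    unfold H.MP_593d43_lc.sq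
    rw [e]
  · have := Nat.sInf_le hG
    omega

end Pool.Agent.Results.MP_593d43_lc.Span
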